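import Pool.Agent.H20.Cube

namespace Pool.Agent.Results.MP_1fec7a_co.PlanarQ2
open Pool.Agent.H20

theorem result : ∃ (G : SimpleGraph (Fin 13)) (k : ℕ),
    ReducedGenusZero G ∧ CliquePartitioned G ∧ G.chromaticNumber = k ∧
    max (heawood 0 - 1) (G.cliqueNum : ℝ) < k := by
  refine ⟨Cube.G, 4, Cube.rg0, Cube.cp, Cube.chi4, ?_⟩
  rw [Cube.omega3]
  have : heawood 0 = 4 := by
    simp [heawood]
    norm_num
  rw [this]
  norm_num

end Pool.Agent.Results.MP_1fec7a_co.PlanarQ2
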